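import Mathlib

/-!
# Shadowing and specification on sets containing the measure center
-/

set_option autoImplicit false

open Filter Topology Finset

namespace Pool.Agent.Results.MP_7fd9c6_an.MeasureCenterShadowing

section Defs

open MeasureTheory

variable {X : Type} [MetricSpace X]

/-- A set of measure zero for every invariant Borel probability measure. -/
def UnivNull [MeasurableSpace X] (f : X → X) (U : Set X) : Prop :=
  ∀ μ : Measure X, IsProbabilityMeasure μ → MeasurePreserving f μ μ → μ U = 0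

/-- The measure center. -/
def measureCenter [MeasurableSpace X] (f : X → X) : Set X :=
  (⋃₀ {U : Set X | IsOpen U ∧ UnivNull f U})ᶜ

/-- `x` is a `δ`-average-pseudo-orbit of `f` in `A`. -/
def IsAvgPseudoOrbit (f : X → X) (A : Set X) (δ : ℝ) (x : ℕ → X) : Prop :=
  (∀ i, x i ∈ A) ∧ ∃ N : ℕ, ∀ n ≥ N, ∀ k : ℕ,
    (∑ i ∈ Finset.range n, dist (f (x (i + k))) (x (i + k + 1))) / n < δ

/-- The average shadowing property of the restriction of `f` to `A`. -/
def HasASP (f : X → X) (A : Set X) : Prop :=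
  ∀ ε > 0, ∃ δ > 0, ∀ x : ℕ → X, IsAvgPseudoOrbit f A δ x →
    ∃ y ∈ A, limsup (fun n : ℕ => (∑ i ∈ Finset.range n, dist (f^[i] y) (x i)) / n) atTop < ε

/-- The asymptotic average shadowing property of the restriction of `f` to `A`. -/
def HasAASP (f : X → X) (A : Set X) : Prop :=
  ∀ x : ℕ → X, (∀ i, x i ∈ A) →
    Tendsto (fun n : ℕ => (∑ i ∈ Finset.range n, dist (f (x i)) (x (i + 1))) / n) atTop (𝓝 0) →
    ∃ y ∈ A, Tendsto (fun n : ℕ => (∑ i ∈ Finset.range n, dist (f^[i] y) (x i)) / n) atTop (𝓝 0)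

/-- A mistake function, defined on `(0, ε₀]` and extended constantly beyond `ε₀`. -/
def IsMistake (g : ℕ → ℝ → ℕ) (ε₀ : ℝ) : Prop :=
  0 < ε₀ ∧ (∀ ε, 0 < ε → ε ≤ ε₀ → Monotone (fun n => g n ε) ∧
    Tendsto (fun n : ℕ => (g n ε : ℝ) / n) atTop (𝓝 0)) ∧ ∀ n ε, ε₀ < ε → g n ε = g n ε₀

/-- The set `B_n(g; x, ε)`. -/
def BB (f : X → X) (g : ℕ → ℝ → ℕ) (n : ℕ) (x : X) (ε : ℝ) : Set X :=
  {y | ∃ Λ ⊆ Finset.range n, n ≤ Λ.card + g n ε ∧ ∀ j ∈ Λ, dist (f^[j] x) (f^[j] y) < ε}

/-- The almost specification property of the restriction of `f` to `A`. -/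
def HasAS (f : X → X) (A : Set X) : Prop :=
  ∃ (g : ℕ → ℝ → ℕ) (ε₀ : ℝ) (k : ℝ → ℕ), IsMistake g ε₀ ∧
    (∀ ε > 0, ∀ n ≥ k ε, g n ε < n) ∧
    ∀ (m : ℕ) (ε : ℕ → ℝ) (x : ℕ → X) (n : ℕ → ℕ), 1 ≤ m → (∀ j < m, 0 < ε j) →
      (∀ j < m, x j ∈ A) → (∀ j < m, k (ε j) ≤ n j) →
      ∃ z ∈ A, ∀ j < m, f^[∑ i ∈ Finset.range j, n i] z ∈ BB f g (n j) (x j) (ε j)

end Defs

section UD

/-- Upper density at most `c`. -/
def UD (f : ℕ → ℝ) (c : ℝ) : Prop := ∀ η > 0, ∀ᶠ N : ℕ in atTop, f N ≤ (c + η) * N

theorem UD.mono {f g : ℕ → ℝ} {c : ℝ} (h : UD g c) (hfg : ∀ N, f N ≤ g N) : UD f c := by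
  intro η hη
  filter_upwards [h η hη] with N hN
  exact (hfg N).trans hN

theorem UD.weaken {f : ℕ → ℝ} {c c' : ℝ} (h : UD f c) (hc : c ≤ c') : UD f c' := by
  intro η hη
  filter_upwards [h η hη] with N hN
  refine hN.trans ?_
  have : (0 : ℝ) ≤ N := Nat.cast_nonneg N
  nlinarith

theorem UD.add {f g : ℕ → ℝ} {c d : ℝ} (hf : UD f c) (hg : UD g d) :
    UD (fun N => f N + g N) (c + d) := by
  intro η hη
  filter_upwards [hf (η / 2) (by linarith), hg (η / 2) (by linarith)] with N h1 h2
  have : (c + d + η) * N = (c + η / 2) * N + (d + η / 2) * N := by ring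
  rw [this]
  exact add_le_add h1 h2

theorem UD.const_mul {f : ℕ → ℝ} {c : ℝ} (hf : UD f c) (a : ℝ) (ha : 0 ≤ a) :
    UD (fun N => a * f N) (a * c) := by
  intro η hη
  filter_upwards [hf (η / (a + 1)) (by positivity)] with N h1
  have h2 := mul_le_mul_of_nonneg_left h1 ha
  refine h2.trans ?_
  have h3 : (0 : ℝ) ≤ N := Nat.cast_nonneg N
  have h4 : a * (η / (a + 1)) ≤ η := by
    rw [mul_div_assoc', div_le_iff₀ (by positivity)]
    nlinarith
  nlinarith

theorem UD.const (a : ℝ) : UD (fun _ => a) 0 := by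
  intro η hη
  filter_upwards [eventually_ge_atTop (Nat.ceil (a / η))] with N hN
  have h1 : a / η ≤ N := (Nat.le_ceil _).trans (by exact_mod_cast hN)
  rw [div_le_iff₀ hη] at h1
  linarith

theorem UD.lin (c : ℝ) : UD (fun N => c * N) c := by
  intro η hη
  filter_upwards with N
  have h3 : (0 : ℝ) ≤ N := Nat.cast_nonneg N
  nlinarith

theorem UD.shift {f : ℕ → ℝ} {c : ℝ} (hf : UD f c) (_hc : 0 ≤ c) (s : ℕ) :
    UD (fun N => f (N + s)) c := by
  intro η hη
  have h1 := (tendsto_add_atTop_nat s).eventually (hf (η / 2) (by linarith))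
  have h2 := UD.const ((c + η / 2) * s) (η / 2) (by linarith)
  filter_upwards [h1, h2] with N h1 h2
  refine h1.trans ?_
  push_cast
  nlinarith

theorem UD.sum {ι : Type} (s : Finset ι) (f : ι → ℕ → ℝ) (c : ι → ℝ) (h : ∀ i ∈ s, UD (f i) (c i)) :
    UD (fun N => ∑ i ∈ s, f i N) (∑ i ∈ s, c i) := by
  classical
  induction s using Finset.induction_on with
  | empty =>
    simpa using UD.const 0
  | insert a s ha ih =>
    simp only [Finset.sum_insert ha]
    exact (h a (Finset.mem_insert_self _ _)).add (ih (fun i hi => h i (Finset.mem_insert_of_mem hi)))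

end UD

section Comb

/-- The parity symbol. -/
def par (m : ℕ) : Fin 3 := if m % 2 = 0 then 0 else 1

theorem par_ne (m : ℕ) : par m ≠ par (m + 1) := by
  unfold par
  rcases Nat.mod_two_eq_zero_or_one m with h | h
  · rw [if_pos h, if_neg (by omega)]
    decide
  · rw [if_neg (by omega), if_pos (by omega)]
    decide

theorem par_ne_two (m : ℕ) : par m ≠ 2 := by
  unfold par
  split_ifs <;> decide

/-- The window `[t, t + 20 ^ m)` of `x` has at least 90 percent of the symbol `par m`. -/
def Dens (m t : ℕ) (x : ℕ → Fin 3) : Prop :=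
  9 * 20 ^ m ≤ 10 * ((Finset.Ico t (t + 20 ^ m)).filter (fun i => x i = par m)).card

/-- The forbidden pattern of scale `k` at position `t`. -/
def Forb (k t : ℕ) (x : ℕ → Fin 3) : Prop := ∀ m, k ≤ m → m ≤ 2 * k + 1 → Dens m t x

theorem dens_congr {m t t' : ℕ} {x x' : ℕ → Fin 3} (h : ∀ j < 20 ^ m, x (t + j) = x' (t' + j)) :
    Dens m t x ↔ Dens m t' x' := by
  have : ((Finset.Ico t (t + 20 ^ m)).filter (fun i => x i = par m)).card =
      ((Finset.Ico t' (t' + 20 ^ m)).filter (fun i => x' i = par m)).card := by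
    refine Finset.card_bij' (fun i _ => i - t + t') (fun i _ => i - t' + t) ?_ ?_ ?_ ?_
    · intro i hi
      simp only [Finset.mem_filter, Finset.mem_Ico] at hi ⊢
      have := h (i - t) (by omega)
      rw [show t + (i - t) = i by omega] at this
      refine ⟨by omega, ?_⟩
      rw [show i - t + t' = t' + (i - t) by omega, ← this]
      exact hi.2
    · intro i hi
      simp only [Finset.mem_filter, Finset.mem_Ico] at hi ⊢
      have := h (i - t') (by omega)
      rw [show t' + (i - t') = i by omega] at this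
      refine ⟨by omega, ?_⟩
      rw [show i - t' + t = t + (i - t') by omega, this]
      exact hi.2
    · intro i hi
      simp only [Finset.mem_filter, Finset.mem_Ico] at hi
      omega
    · intro i hi
      simp only [Finset.mem_filter, Finset.mem_Ico] at hi
      omega
  unfold Dens
  rw [this]

theorem forb_congr {k t t' : ℕ} {x x' : ℕ → Fin 3}
    (h : ∀ j < 20 ^ (2 * k + 1), x (t + j) = x' (t' + j)) : Forb k t x ↔ Forb k t' x' := by
  constructor
  · intro hf m h1 h2
    refine (dens_congr (fun j hj => h j (lt_of_lt_of_le hj ?_))).1 (hf m h1 h2)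
    exact Nat.pow_le_pow_right (by norm_num) h2
  · intro hf m h1 h2
    refine (dens_congr (fun j hj => h j (lt_of_lt_of_le hj ?_))).2 (hf m h1 h2)
    exact Nat.pow_le_pow_right (by norm_num) h2

theorem dens_mono {m t : ℕ} {x y : ℕ → Fin 3} (h : ∀ i, y i = x i ∨ y i = 2) (hd : Dens m t y) :
    Dens m t x := by
  unfold Dens at hd ⊢
  refine hd.trans (Nat.mul_le_mul_left _ (Finset.card_le_card ?_))
  intro i hi
  rw [Finset.mem_filter] at hi ⊢
  refine ⟨hi.1, ?_⟩
  rcases h i with h' | h'
  · rw [← h']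
    exact hi.2
  · rw [h'] at hi
    exact absurd hi.2.symm (par_ne_two m)

/-- Greedy selection. -/
theorem sel (l : ℕ) (hl : 1 ≤ l) : ∀ (n : ℕ) (T : Finset ℕ), T.card ≤ n →
    ∃ D ⊆ T, (∀ u ∈ D, ∀ u' ∈ D, u < u' → u + l ≤ u') ∧ ∀ t ∈ T, ∃ u ∈ D, u ≤ t ∧ t < u + l := by
  intro n
  induction n with
  | zero =>
    intro T hT
    have : T = ∅ := Finset.card_eq_zero.1 (by omega)
    subst this
    exact ⟨∅, Finset.Subset.refl _, by simp, by simp⟩
  | succ n ih =>
    intro T hT
    by_cases hne : T.Nonempty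
    · have hu := Finset.min'_mem T hne
      obtain ⟨D, h1, h2, h3⟩ := ih (T.filter (fun t => T.min' hne + l ≤ t)) (by
        have : (T.filter (fun t => T.min' hne + l ≤ t)).card < T.card := by
          apply Finset.card_lt_card
          rw [Finset.filter_ssubset]
          exact ⟨_, hu, by omega⟩
        omega)
      refine ⟨insert (T.min' hne) D, ?_, ?_, ?_⟩
      · intro u hu'
        rcases Finset.mem_insert.1 hu' with h | h
        · rw [h]
          exact hu
        · exact (Finset.mem_filter.1 (h1 h)).1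
      · intro u hu1 u' hu2 hlt
        rcases Finset.mem_insert.1 hu1 with h | h
        · rcases Finset.mem_insert.1 hu2 with h' | h'
          · omega
          · have := (Finset.mem_filter.1 (h1 h')).2
            omega
        · rcases Finset.mem_insert.1 hu2 with h' | h'
          · have := (Finset.mem_filter.1 (h1 h)).2
            omega
          · exact h2 u h u' h' hlt
      · intro t ht
        have hmin := Finset.min'_le T t ht
        by_cases hlt : T.min' hne + l ≤ t
        · obtain ⟨u, hu', h4⟩ := h3 t (Finset.mem_filter.2 ⟨ht, hlt⟩)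
          exact ⟨u, Finset.mem_insert_of_mem hu', h4⟩
        · exact ⟨_, Finset.mem_insert_self _ _, hmin, by omega⟩
    · rw [Finset.not_nonempty_iff_eq_empty] at hne
      subst hne
      exact ⟨∅, Finset.Subset.refl _, by simp, by simp⟩

theorem count_le {m u : ℕ} {a : ℕ → Fin 3} (hd : Dens (m + 1) u a) :
    ((Finset.Ico u (u + 20 ^ (m + 1))).filter (fun i => a i = par m)).card ≤ 2 * 20 ^ m := by
  have h1 : ((Finset.Ico u (u + 20 ^ (m + 1))).filter (fun i => a i = par m)).card +
      ((Finset.Ico u (u + 20 ^ (m + 1))).filter (fun i => a i = par (m + 1))).card ≤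
      20 ^ (m + 1) := by
    rw [← Finset.card_union_of_disjoint]
    · refine (Finset.card_le_card (t := Finset.Ico u (u + 20 ^ (m + 1))) ?_).trans ?_
      · intro i hi
        rcases Finset.mem_union.1 hi with h | h
        · exact (Finset.mem_filter.1 h).1
        · exact (Finset.mem_filter.1 h).1
      · rw [Nat.card_Ico, Nat.add_sub_cancel_left]
    · rw [Finset.disjoint_left]
      intro i h1 h2
      exact par_ne m ((Finset.mem_filter.1 h1).2.symm.trans (Finset.mem_filter.1 h2).2)
  unfold Dens at hd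
  rw [pow_succ] at h1 hd ⊢
  omega

theorem compare {m : ℕ} {a : ℕ → Fin 3} {T D D' : Finset ℕ} (hT : ∀ t ∈ T, Dens m t a)
    (hT' : ∀ t ∈ T, Dens (m + 1) t a) (hD : D ⊆ T)
    (hsep : ∀ u ∈ D, ∀ u' ∈ D, u < u' → u + 20 ^ m ≤ u') (hD' : D' ⊆ T)
    (hcov : ∀ t ∈ T, ∃ u ∈ D', u ≤ t ∧ t < u + 20 ^ (m + 1)) : D.card ≤ 4 * D'.card := by
  let U : ℕ → Finset ℕ := fun t => (Finset.Ico t (t + 20 ^ m)).filter (fun i => a i = par m)
  have h1 : (D.biUnion U).card = ∑ t ∈ D, (U t).card := by
    apply Finset.card_biUnion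
    intro u hu u' hu' hne
    rw [Function.onFun, Finset.disjoint_left]
    intro i hi hi'
    simp only [U, Finset.mem_filter, Finset.mem_Ico] at hi hi'
    rcases lt_or_gt_of_ne hne with h | h
    · have := hsep u hu u' hu' h
      omega
    · have := hsep u' hu' u hu h
      omega
  have h2 : D.card * (9 * 20 ^ m) ≤ 10 * (D.biUnion U).card := by
    rw [h1, Finset.mul_sum, ← smul_eq_mul, ← Finset.sum_const]
    exact Finset.sum_le_sum (fun t ht => hT t (hD ht))
  have h3 : D.biUnion U ⊆ D'.biUnion (fun u =>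
      (Finset.Ico u (u + 20 ^ (m + 1))).filter (fun i => a i = par m) ∪
        Finset.Ico (u + 20 ^ (m + 1)) (u + 20 ^ (m + 1) + 20 ^ m)) := by
    intro i hi
    obtain ⟨t, ht, hi⟩ := Finset.mem_biUnion.1 hi
    simp only [U, Finset.mem_filter, Finset.mem_Ico] at hi
    obtain ⟨u, hu, hu1, hu2⟩ := hcov t (hD ht)
    refine Finset.mem_biUnion.2 ⟨u, hu, ?_⟩
    simp only [Finset.mem_union, Finset.mem_filter, Finset.mem_Ico]
    by_cases h : i < u + 20 ^ (m + 1)
    · exact Or.inl ⟨⟨by omega, h⟩, hi.2⟩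
    · exact Or.inr ⟨by omega, by omega⟩
  have h4 : (D.biUnion U).card ≤ D'.card * (3 * 20 ^ m) := by
    refine (Finset.card_le_card h3).trans ?_
    refine Finset.card_biUnion_le.trans ?_
    rw [← smul_eq_mul, ← Finset.sum_const]
    apply Finset.sum_le_sum
    intro u hu
    refine (Finset.card_union_le _ _).trans ?_
    have := count_le (hT' u (hD' hu))
    rw [Nat.card_Ico]
    omega
  have h5 : 0 < 20 ^ m := by positivity
  have h6 : D.card * (9 * 20 ^ m) ≤ 10 * (D'.card * (3 * 20 ^ m)) :=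
    h2.trans (Nat.mul_le_mul_left _ h4)
  have h7 : (9 * D.card) * 20 ^ m ≤ (30 * D'.card) * 20 ^ m := by
    calc (9 * D.card) * 20 ^ m = D.card * (9 * 20 ^ m) := by ring
      _ ≤ 10 * (D'.card * (3 * 20 ^ m)) := h6
      _ = (30 * D'.card) * 20 ^ m := by ring
  have := Nat.le_of_mul_le_mul_right h7 h5
  omega

theorem cover {k N : ℕ} {a : ℕ → Fin 3} (T : Finset ℕ) (hT : ∀ t ∈ T, Forb k t a)
    (hN : ∀ t ∈ T, t < N) : 5 ^ (k + 1) * (T.biUnion (fun t => Finset.Ico t (t + 20 ^ k))).card ≤
      2 * (N + 20 ^ (2 * k + 1)) := by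
  have hpow : ∀ m, 1 ≤ 20 ^ m := fun m => Nat.one_le_pow _ _ (by norm_num)
  -- selections at all scales
  have key : ∀ j, j ≤ k + 1 → ∀ D ⊆ T, (∀ u ∈ D, ∀ u' ∈ D, u < u' → u + 20 ^ k ≤ u') →
      ∃ D' ⊆ T, (∀ u ∈ D', ∀ u' ∈ D', u < u' → u + 20 ^ (k + j) ≤ u') ∧
        D.card ≤ 4 ^ j * D'.card := by
    intro j
    induction j with
    | zero =>
      intro _ D hD hsep
      exact ⟨D, hD, by simpa using hsep, by simp⟩
    | succ j ih =>
      intro hj D hD hsep
      obtain ⟨D1, h1, h2, h3⟩ := ih (by omega) D hD hsep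
      obtain ⟨D2, h4, h5, h6⟩ := sel (20 ^ (k + j + 1)) (hpow _) T.card T le_rfl
      have h7 := compare (m := k + j) (a := a) (fun t ht => hT t ht (k + j) (by omega) (by omega))
        (fun t ht => hT t ht (k + j + 1) (by omega) (by omega)) h1 h2 h4 h6
      refine ⟨D2, h4, h5, ?_⟩
      calc D.card ≤ 4 ^ j * D1.card := h3
        _ ≤ 4 ^ j * (4 * D2.card) := Nat.mul_le_mul_left _ h7
        _ = 4 ^ (j + 1) * D2.card := by ring
  obtain ⟨D, h1, h2, h3⟩ := sel (20 ^ k) (hpow _) T.card T le_rfl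
  obtain ⟨D', h4, h5, h6⟩ := key (k + 1) le_rfl D h1 h2
  have hk : k + (k + 1) = 2 * k + 1 := by omega
  rw [hk] at h5
  have h7 : D'.card * 20 ^ (2 * k + 1) ≤ N + 20 ^ (2 * k + 1) := by
    have e1 : (D'.biUnion (fun u => Finset.Ico u (u + 20 ^ (2 * k + 1)))).card =
        ∑ u ∈ D', (Finset.Ico u (u + 20 ^ (2 * k + 1))).card := by
      apply Finset.card_biUnion
      intro u hu u' hu' hne
      rw [Function.onFun, Finset.disjoint_left]
      intro i hi hi'
      rw [Finset.mem_Ico] at hi hi'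
      rcases lt_or_gt_of_ne hne with h | h
      · have := h5 u hu u' hu' h
        omega
      · have := h5 u' hu' u hu h
        omega
    have e2 : ∑ u ∈ D', (Finset.Ico u (u + 20 ^ (2 * k + 1))).card =
        D'.card * 20 ^ (2 * k + 1) := by
      apply Finset.sum_const_nat
      intro u _
      rw [Nat.card_Ico, Nat.add_sub_cancel_left]
    rw [← e2, ← e1]
    refine (Finset.card_le_card (t := Finset.range (N + 20 ^ (2 * k + 1))) ?_).trans ?_
    · intro i hi
      obtain ⟨u, hu, hi⟩ := Finset.mem_biUnion.1 hi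
      rw [Finset.mem_Ico] at hi
      have := hN u (h4 hu)
      rw [Finset.mem_range]
      omega
    · rw [Finset.card_range]
  have h8 : (T.biUnion (fun t => Finset.Ico t (t + 20 ^ k))).card ≤ D.card * (2 * 20 ^ k) := by
    refine (Finset.card_le_card (t := D.biUnion (fun u => Finset.Ico u (u + 2 * 20 ^ k))) ?_).trans ?_
    · intro i hi
      obtain ⟨t, ht, hi⟩ := Finset.mem_biUnion.1 hi
      rw [Finset.mem_Ico] at hi
      obtain ⟨u, hu, hu1, hu2⟩ := h3 t ht
      refine Finset.mem_biUnion.2 ⟨u, hu, ?_⟩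
      rw [Finset.mem_Ico]
      omega
    · refine Finset.card_biUnion_le.trans (le_of_eq ?_)
      apply Finset.sum_const_nat
      intro u _
      rw [Nat.card_Ico, Nat.add_sub_cancel_left]
  calc 5 ^ (k + 1) * (T.biUnion (fun t => Finset.Ico t (t + 20 ^ k))).card
      ≤ 5 ^ (k + 1) * (D.card * (2 * 20 ^ k)) := Nat.mul_le_mul_left _ h8
    _ ≤ 5 ^ (k + 1) * ((4 ^ (k + 1) * D'.card) * (2 * 20 ^ k)) :=
        Nat.mul_le_mul_left _ (Nat.mul_le_mul_right _ h6)
    _ = 2 * (D'.card * ((5 * 4) ^ (k + 1) * 20 ^ k)) := by rw [mul_pow]; ring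
    _ = 2 * (D'.card * 20 ^ (2 * k + 1)) := by
        rw [show (5 * 4 : ℕ) = 20 by norm_num, ← pow_add, show k + 1 + k = 2 * k + 1 by omega]
    _ ≤ 2 * (N + 20 ^ (2 * k + 1)) := Nat.mul_le_mul_left _ h7

end Comb

section Est

/-- The space of sequences over three symbols. -/
abbrev Sq : Type := ℕ → Fin 3

noncomputable local instance : MetricSpace Sq := PiNat.metricSpace

theorem dist_lt_apply {x y : Sq} {n i : ℕ} (h : dist x y < (1 / 2) ^ n) (hi : i ≤ n) :
    x i = y i := PiNat.apply_eq_of_dist_lt h hi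

theorem dist_le_of_agree {x y : Sq} {n : ℕ} (h : ∀ i < n, x i = y i) :
    dist x y ≤ (1 / 2 : ℝ) ^ n :=
  PiNat.mem_cylinder_iff_dist_le.1 h

theorem dist_le_one' (x y : Sq) : dist x y ≤ 1 := by
  simpa using dist_le_of_agree (x := x) (y := y) (n := 0) (by simp)

/-- The shift. -/
def sh (x : Sq) : Sq := fun n => x (n + 1)

theorem sh_iter (x : Sq) (i n : ℕ) : (sh^[i] x) n = x (i + n) := by
  induction i generalizing x with
  | zero => simp
  | succ i ih =>
    rw [Function.iterate_succ_apply, ih]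
    unfold sh
    congr 1
    omega

/-- The big system. -/
def XX : Set Sq := {x | ∀ k, ∀ F : Finset ℕ, (∀ t ∈ F, Forb k t x) → F.card ≤ 20 ^ (2 * k + 1)}

/-- The small system: no forbidden patterns. -/
def MM : Set Sq := {x | ∀ k t, ¬ Forb k t x}

open Classical in
/-- The number of bad times. -/
noncomputable def cntbad (x : ℕ → Sq) (V N : ℕ) : ℕ :=
  ((Finset.range N).filter (fun i => ∃ j < V, x (i + j) 0 ≠ x i j)).card

/-- The sum of the errors. -/
noncomputable def SS (x : ℕ → Sq) (N : ℕ) : ℝ := ∑ i ∈ Finset.range N, dist (sh (x i)) (x (i + 1))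

theorem not_bad {x : ℕ → Sq} {V i : ℕ}
    (h : ∀ v < V, dist (sh (x (i + v))) (x (i + v + 1)) < (1 / 2 : ℝ) ^ V) :
    ∀ j < V, x (i + j) 0 = x i j := by
  intro j hj
  have key : ∀ m ≤ j, x (i + m) (j - m) = x i j := by
    intro m
    induction m with
    | zero => intro _; rfl
    | succ m ih =>
      intro hm
      rw [← ih (by omega)]
      have h1 := h m (by omega)
      have h2 := dist_lt_apply h1 (i := j - (m + 1)) (by omega)
      rw [← add_assoc, ← h2]
      unfold sh
      congr 1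
      omega
  have := key j le_rfl
  rwa [Nat.sub_self] at this

theorem sum_shift_le (f : ℕ → ℝ) (hf : ∀ i, 0 ≤ f i) (N v V : ℕ) (hv : v ≤ V) :
    ∑ i ∈ Finset.range N, f (i + v) ≤ ∑ i ∈ Finset.range (N + V), f i := by
  rw [Finset.range_eq_Ico, Finset.sum_Ico_add']
  apply Finset.sum_le_sum_of_subset_of_nonneg
  · intro i hi
    rw [Finset.mem_Ico] at hi
    rw [Finset.mem_range]
    omega
  · intro i _ _
    exact hf i

theorem UD_bad {x : ℕ → Sq} {δ : ℝ} (hδ : 0 ≤ δ) (h : UD (SS x) δ) (V : ℕ) :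
    UD (fun N => (cntbad x V N : ℝ)) (2 ^ V * V * δ) := by
  classical
  refine ((h.shift hδ V).const_mul (2 ^ V * V) (by positivity)).mono ?_
  intro N
  have h1 : (cntbad x V N : ℝ) = ∑ i ∈ Finset.range N,
      if ∃ j < V, x (i + j) 0 ≠ x i j then (1 : ℝ) else 0 := by
    unfold cntbad
    rw [Finset.card_filter]
    push_cast
    apply Finset.sum_congr rfl
    intro i _
    split_ifs <;> simp
  rw [h1]
  calc ∑ i ∈ Finset.range N, (if ∃ j < V, x (i + j) 0 ≠ x i j then (1 : ℝ) else 0)
      ≤ ∑ i ∈ Finset.range N, ∑ v ∈ Finset.range V, 2 ^ V * dist (sh (x (i + v))) (x (i + v + 1)) := by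
        apply Finset.sum_le_sum
        intro i _
        split_ifs with hb
        · have : ∃ v < V, (1 / 2 : ℝ) ^ V ≤ dist (sh (x (i + v))) (x (i + v + 1)) := by
            by_contra hne
            push Not at hne
            obtain ⟨j, hj, hj'⟩ := hb
            exact hj' (not_bad hne j hj)
          obtain ⟨v, hv, hv'⟩ := this
          calc (1 : ℝ) = 2 ^ V * (1 / 2 : ℝ) ^ V := by rw [← mul_pow]; norm_num
            _ ≤ 2 ^ V * dist (sh (x (i + v))) (x (i + v + 1)) :=
              mul_le_mul_of_nonneg_left hv' (by positivity)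
            _ ≤ _ := Finset.single_le_sum
              (f := fun v => 2 ^ V * dist (sh (x (i + v))) (x (i + v + 1)))
              (fun v _ => by positivity) (Finset.mem_range.2 hv)
        · exact Finset.sum_nonneg (fun v _ => by positivity)
    _ = ∑ v ∈ Finset.range V, 2 ^ V * ∑ i ∈ Finset.range N,
          dist (sh (x (i + v))) (x (i + v + 1)) := by
        rw [Finset.sum_comm]
        simp only [Finset.mul_sum]
    _ ≤ ∑ v ∈ Finset.range V, 2 ^ V * SS x (N + V) := by
        apply Finset.sum_le_sum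
        intro v hv
        apply mul_le_mul_of_nonneg_left _ (by positivity)
        exact sum_shift_le (fun i => dist (sh (x i)) (x (i + 1))) (fun i => dist_nonneg) N v V
          (Finset.mem_range.1 hv).le
    _ = 2 ^ V * V * SS x (N + V) := by
        rw [Finset.sum_const, Finset.card_range, nsmul_eq_mul]
        ring

open Classical in
/-- The number of forbidden patterns of the trace. -/
noncomputable def cntF (x : ℕ → Sq) (k N : ℕ) : ℕ :=
  ((Finset.range N).filter (fun t => Forb k t (fun i => x i 0))).card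

theorem cntF_le {x : ℕ → Sq} (hx : ∀ i, x i ∈ XX) (k V N : ℕ) :
    V * cntF x k N ≤ V * V + (20 ^ (2 * k + 1) * N + V * cntbad x (V + 20 ^ (2 * k + 1)) N) := by
  classical
  let a : ℕ → Fin 3 := fun i => x i 0
  have h1 : ∀ v ∈ Finset.range V, cntF x k N ≤
      ((Finset.range N).filter (fun i => Forb k (i + v) a)).card + V := by
    intro v hv
    rw [Finset.mem_range] at hv
    have : (Finset.range N).filter (fun t => Forb k t a) ⊆
        ((Finset.range N).filter (fun i => Forb k (i + v) a)).image (· + v) ∪ Finset.range v := by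
      intro t ht
      rw [Finset.mem_filter, Finset.mem_range] at ht
      rw [Finset.mem_union, Finset.mem_image, Finset.mem_range]
      by_cases h : t < v
      · exact Or.inr h
      · refine Or.inl ⟨t - v, ?_, by omega⟩
        rw [Finset.mem_filter, Finset.mem_range, show t - v + v = t by omega]
        exact ⟨by omega, ht.2⟩
    calc cntF x k N = ((Finset.range N).filter (fun t => Forb k t a)).card := rfl
      _ ≤ _ := Finset.card_le_card this
      _ ≤ (((Finset.range N).filter (fun i => Forb k (i + v) a)).image (· + v)).card +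
          (Finset.range v).card := Finset.card_union_le _ _
      _ ≤ ((Finset.range N).filter (fun i => Forb k (i + v) a)).card + V := by
          rw [Finset.card_range]
          exact add_le_add Finset.card_image_le hv.le
  have h2 : V * cntF x k N ≤ ∑ v ∈ Finset.range V,
      (((Finset.range N).filter (fun i => Forb k (i + v) a)).card + V) := by
    have := Finset.card_nsmul_le_sum (Finset.range V) _ _ h1
    rwa [Finset.card_range, smul_eq_mul] at this
  rw [Finset.sum_add_distrib, Finset.sum_const, Finset.card_range, smul_eq_mul] at h2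
  have h3 : ∑ v ∈ Finset.range V, ((Finset.range N).filter (fun i => Forb k (i + v) a)).card =
      ∑ i ∈ Finset.range N, ((Finset.range V).filter (fun v => Forb k (i + v) a)).card := by
    simp only [Finset.card_filter]
    exact Finset.sum_comm
  have h4 : ∑ i ∈ Finset.range N, ((Finset.range V).filter (fun v => Forb k (i + v) a)).card ≤
      ∑ i ∈ Finset.range N, (20 ^ (2 * k + 1) +
        V * (if ∃ j < V + 20 ^ (2 * k + 1), x (i + j) 0 ≠ x i j then 1 else 0)) := by
    apply Finset.sum_le_sum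
    intro i _
    split_ifs with hb
    · refine (Finset.card_filter_le _ _).trans ?_
      rw [Finset.card_range, mul_one]
      exact Nat.le_add_left _ _
    · push Not at hb
      refine le_trans ?_ (Nat.le_add_right _ _)
      apply hx i k
      intro v hv
      rw [Finset.mem_filter, Finset.mem_range] at hv
      refine (forb_congr (t := v) (t' := i + v) ?_).2 hv.2
      intro j hj
      have := hb (v + j) (by omega)
      rw [← this]
      change x (i + (v + j)) 0 = x (i + v + j) 0
      rw [add_assoc]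
  have h5 : ∑ i ∈ Finset.range N, (20 ^ (2 * k + 1) +
        V * (if ∃ j < V + 20 ^ (2 * k + 1), x (i + j) 0 ≠ x i j then 1 else 0)) =
      20 ^ (2 * k + 1) * N + V * cntbad x (V + 20 ^ (2 * k + 1)) N := by
    rw [Finset.sum_add_distrib, Finset.sum_const, Finset.card_range, smul_eq_mul, ← Finset.mul_sum]
    unfold cntbad
    rw [Finset.card_filter, Nat.mul_comm N]
  omega

theorem UD_F {x : ℕ → Sq} (hx : ∀ i, x i ∈ XX) {δ : ℝ} (hδ : 0 ≤ δ) (h : UD (SS x) δ) (k V : ℕ)
    (hV : 1 ≤ V) : UD (fun N => (cntF x k N : ℝ)) (20 ^ (2 * k + 1) / V +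
      2 ^ (V + 20 ^ (2 * k + 1)) * ((V + 20 ^ (2 * k + 1) : ℕ) : ℝ) * δ) := by
  have h1 := ((UD.const (V : ℝ)).add (UD.lin ((20 : ℝ) ^ (2 * k + 1) / V))).add
    (UD_bad hδ h (V + 20 ^ (2 * k + 1)))
  rw [zero_add] at h1
  refine h1.mono ?_
  intro N
  have h2 := cntF_le hx k V N
  have hV' : (0 : ℝ) < V := by exact_mod_cast hV
  have h3 : (V : ℝ) * cntF x k N ≤ V * V + (20 ^ (2 * k + 1) * N +
      V * cntbad x (V + 20 ^ (2 * k + 1)) N) := by exact_mod_cast h2
  have h4 : (V : ℝ) * (V + 20 ^ (2 * k + 1) / V * N + cntbad x (V + 20 ^ (2 * k + 1)) N) =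
      V * V + (20 ^ (2 * k + 1) * N + V * cntbad x (V + 20 ^ (2 * k + 1)) N) := by
    field_simp
    ring
  rw [← h4] at h3
  exact le_of_mul_le_mul_left h3 hV'

/-- The erased positions. -/
def Er (x : ℕ → Sq) (i : ℕ) : Prop :=
  ∃ k t, 20 ^ (2 * k + 1) ≤ t ∧ t ≤ i ∧ i < t + 20 ^ k ∧ Forb k t (fun i => x i 0)

open Classical in
/-- The number of erased positions. -/
noncomputable def cntE (x : ℕ → Sq) (N : ℕ) : ℕ := ((Finset.range N).filter (Er x)).card

theorem geom (K N : ℕ) : ∑ k ∈ Finset.Ico K N, 4 * (1 / 5 : ℝ) ^ (k + 1) ≤ (1 / 5 : ℝ) ^ K := by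
  rw [Finset.sum_Ico_eq_sum_range]
  have : ∀ n : ℕ, ∑ i ∈ Finset.range n, 4 * (1 / 5 : ℝ) ^ (K + i + 1) =
      (1 / 5 : ℝ) ^ K - (1 / 5 : ℝ) ^ (K + n) := by
    intro n
    induction n with
    | zero => simp
    | succ n ih =>
      rw [Finset.sum_range_succ, ih, ← add_assoc, pow_succ]
      ring
  rw [this]
  have h2 : (0 : ℝ) ≤ (1 / 5 : ℝ) ^ (K + (N - K)) := by positivity
  linarith

theorem cntE_le (x : ℕ → Sq) (K N : ℕ) : (cntE x N : ℝ) ≤
    ∑ k ∈ Finset.range K, 20 ^ k * (cntF x k N : ℝ) + (1 / 5 : ℝ) ^ K * N := by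
  classical
  let a : ℕ → Fin 3 := fun i => x i 0
  let T : ℕ → Finset ℕ := fun k => (Finset.range N).filter
    (fun t => 20 ^ (2 * k + 1) ≤ t ∧ Forb k t a)
  let T0 : ℕ → Finset ℕ := fun k => (Finset.range N).filter (fun t => Forb k t a)
  have h1 : (Finset.range N).filter (Er x) ⊆
      (Finset.range K).biUnion (fun k => (T0 k).biUnion (fun t => Finset.Ico t (t + 20 ^ k))) ∪
      (Finset.Ico K N).biUnion (fun k => (T k).biUnion (fun t => Finset.Ico t (t + 20 ^ k))) := by
    intro i hi
    rw [Finset.mem_filter, Finset.mem_range] at hi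
    obtain ⟨hiN, k, t, h1, h2, h3, h4⟩ := hi
    rw [Finset.mem_union, Finset.mem_biUnion, Finset.mem_biUnion]
    by_cases hk : k < K
    · refine Or.inl ⟨k, Finset.mem_range.2 hk, ?_⟩
      rw [Finset.mem_biUnion]
      exact ⟨t, Finset.mem_filter.2 ⟨Finset.mem_range.2 (by omega), h4⟩,
        Finset.mem_Ico.2 ⟨h2, h3⟩⟩
    · have h5 : k < 20 ^ (2 * k + 1) := by
        have : 2 * k + 1 < 20 ^ (2 * k + 1) := Nat.lt_pow_self (by norm_num)
        omega
      refine Or.inr ⟨k, Finset.mem_Ico.2 ⟨by omega, by omega⟩, ?_⟩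
      rw [Finset.mem_biUnion]
      exact ⟨t, Finset.mem_filter.2 ⟨Finset.mem_range.2 (by omega), h1, h4⟩,
        Finset.mem_Ico.2 ⟨h2, h3⟩⟩
  have h2 : cntE x N ≤ ∑ k ∈ Finset.range K, 20 ^ k * cntF x k N +
      ∑ k ∈ Finset.Ico K N, ((T k).biUnion (fun t => Finset.Ico t (t + 20 ^ k))).card := by
    refine (Finset.card_le_card h1).trans ((Finset.card_union_le _ _).trans ?_)
    apply add_le_add
    · refine Finset.card_biUnion_le.trans ?_
      apply Finset.sum_le_sum
      intro k _
      refine Finset.card_biUnion_le.trans (le_of_eq ?_)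
      rw [Finset.sum_const_nat (m := 20 ^ k), Nat.mul_comm]
      · rfl
      · intro t _
        rw [Nat.card_Ico, Nat.add_sub_cancel_left]
    · exact Finset.card_biUnion_le
  have h3 : ∀ k ∈ Finset.Ico K N,
      (((T k).biUnion (fun t => Finset.Ico t (t + 20 ^ k))).card : ℝ) ≤
        4 * (1 / 5 : ℝ) ^ (k + 1) * N := by
    intro k _
    by_cases hne : (T k).Nonempty
    · obtain ⟨t, ht⟩ := hne
      have ht' := Finset.mem_filter.1 ht
      rw [Finset.mem_range] at ht'
      have h4 := cover (k := k) (N := N) (a := a) (T k)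
        (fun t ht => (Finset.mem_filter.1 ht).2.2)
        (fun t ht => Finset.mem_range.1 (Finset.mem_filter.1 ht).1)
      have h5 : 5 ^ (k + 1) * ((T k).biUnion (fun t => Finset.Ico t (t + 20 ^ k))).card ≤ 4 * N := by
        omega
      have h6 : (5 : ℝ) ^ (k + 1) *
          (((T k).biUnion (fun t => Finset.Ico t (t + 20 ^ k))).card : ℝ) ≤ 4 * N := by
        exact_mod_cast h5
      have h7 : 4 * (1 / 5 : ℝ) ^ (k + 1) * N = (4 * N) / 5 ^ (k + 1) := by
        rw [one_div, inv_pow]
        field_simp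
      rw [h7, le_div_iff₀ (by positivity), mul_comm]
      exact h6
    · rw [Finset.not_nonempty_iff_eq_empty] at hne
      rw [hne]
      simp only [Finset.biUnion_empty, Finset.card_empty, Nat.cast_zero]
      positivity
  calc (cntE x N : ℝ) ≤ ∑ k ∈ Finset.range K, 20 ^ k * (cntF x k N : ℝ) +
      ∑ k ∈ Finset.Ico K N, (((T k).biUnion (fun t => Finset.Ico t (t + 20 ^ k))).card : ℝ) := by
        exact_mod_cast h2
    _ ≤ ∑ k ∈ Finset.range K, 20 ^ k * (cntF x k N : ℝ) +
        ∑ k ∈ Finset.Ico K N, 4 * (1 / 5 : ℝ) ^ (k + 1) * N := by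
        gcongr with k hk
        exact h3 k hk
    _ ≤ _ := by
        rw [← Finset.sum_mul]
        have := mul_le_mul_of_nonneg_right (geom K N) (Nat.cast_nonneg (α := ℝ) N)
        linarith

open Classical in
/-- The shadowing point. -/
noncomputable def yy (x : ℕ → Sq) : Sq := fun i => if Er x i then 2 else x i 0

theorem yy_mem (x : ℕ → Sq) : yy x ∈ XX := by
  classical
  intro k F hF
  have : F ⊆ Finset.range (20 ^ (2 * k + 1)) := by
    intro t ht
    rw [Finset.mem_range]
    by_contra hlt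
    have h1 := hF t ht
    have hor : ∀ i, yy x i = (fun i => x i 0) i ∨ yy x i = 2 := by
      intro i
      unfold yy
      split_ifs
      · exact Or.inr rfl
      · exact Or.inl rfl
    have h2 : Forb k t (fun i => x i 0) := fun m hm hm' => dens_mono hor (h1 m hm hm')
    have h3 := h1 k le_rfl (by omega)
    unfold Dens at h3
    have h4 : ((Finset.Ico t (t + 20 ^ k)).filter (fun i => yy x i = par k)) = ∅ := by
      rw [Finset.filter_eq_empty_iff]
      intro i hi
      rw [Finset.mem_Ico] at hi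
      have : Er x i := ⟨k, t, by omega, hi.1, hi.2, h2⟩
      unfold yy
      rw [if_pos this]
      exact (par_ne_two k).symm
    rw [h4, Finset.card_empty] at h3
    have : 0 < 20 ^ k := by positivity
    omega
  have h := Finset.card_le_card this
  rwa [Finset.card_range] at h

/-- The tracing error. -/
noncomputable def TT (x : ℕ → Sq) (N : ℕ) : ℝ :=
  ∑ i ∈ Finset.range N, dist (sh^[i] (yy x)) (x i)

theorem TT_le (x : ℕ → Sq) (W N : ℕ) :
    TT x N ≤ (1 / 2 : ℝ) ^ W * N + (cntbad x W N : ℝ) + W * (cntE x (N + W) : ℝ) := by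
  classical
  have h1 : ∀ i, dist (sh^[i] (yy x)) (x i) ≤ (1 / 2 : ℝ) ^ W +
      (if ∃ j < W, x (i + j) 0 ≠ x i j then (1 : ℝ) else 0) +
      ∑ j ∈ Finset.range W, (if Er x (i + j) then (1 : ℝ) else 0) := by
    intro i
    have hnn : (0 : ℝ) ≤ (1 / 2 : ℝ) ^ W := by positivity
    have hs : (0 : ℝ) ≤ ∑ j ∈ Finset.range W, (if Er x (i + j) then (1 : ℝ) else 0) :=
      Finset.sum_nonneg (fun j _ => by split_ifs <;> norm_num)
    have hone := dist_le_one' (sh^[i] (yy x)) (x i)
    by_cases hb : ∃ j < W, x (i + j) 0 ≠ x i j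
    · rw [if_pos hb]
      linarith
    · rw [if_neg hb]
      push Not at hb
      by_cases he : ∃ j < W, Er x (i + j)
      · obtain ⟨j, hj, hj'⟩ := he
        have : (1 : ℝ) ≤ ∑ j ∈ Finset.range W, (if Er x (i + j) then (1 : ℝ) else 0) := by
          refine le_trans ?_ (Finset.single_le_sum
            (f := fun j => if Er x (i + j) then (1 : ℝ) else 0)
            (fun j _ => by split_ifs <;> norm_num) (Finset.mem_range.2 hj))
          rw [if_pos hj']
        linarith
      · push Not at he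
        have : dist (sh^[i] (yy x)) (x i) ≤ (1 / 2 : ℝ) ^ W := by
          apply dist_le_of_agree
          intro j hj
          rw [sh_iter]
          unfold yy
          rw [if_neg (he j hj)]
          exact hb j hj
        linarith
  have h2 : (cntbad x W N : ℝ) = ∑ i ∈ Finset.range N,
      if ∃ j < W, x (i + j) 0 ≠ x i j then (1 : ℝ) else 0 := by
    unfold cntbad
    rw [Finset.card_filter]
    push_cast
    apply Finset.sum_congr rfl
    intro i _
    split_ifs <;> simp
  have h3 : (cntE x (N + W) : ℝ) = ∑ i ∈ Finset.range (N + W), if Er x i then (1 : ℝ) else 0 := by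
    unfold cntE
    rw [Finset.card_filter]
    push_cast
    rfl
  calc TT x N ≤ ∑ i ∈ Finset.range N, ((1 / 2 : ℝ) ^ W +
      (if ∃ j < W, x (i + j) 0 ≠ x i j then (1 : ℝ) else 0) +
      ∑ j ∈ Finset.range W, (if Er x (i + j) then (1 : ℝ) else 0)) :=
        Finset.sum_le_sum (fun i _ => h1 i)
    _ = (1 / 2 : ℝ) ^ W * N + (cntbad x W N : ℝ) +
        ∑ j ∈ Finset.range W, ∑ i ∈ Finset.range N, (if Er x (i + j) then (1 : ℝ) else 0) := by
        rw [Finset.sum_add_distrib, Finset.sum_add_distrib, h2, Finset.sum_const,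
          Finset.card_range, nsmul_eq_mul, mul_comm (N : ℝ)]
        congr 1
        exact Finset.sum_comm
    _ ≤ (1 / 2 : ℝ) ^ W * N + (cntbad x W N : ℝ) + ∑ j ∈ Finset.range W, (cntE x (N + W) : ℝ) := by
        gcongr with j hj
        rw [h3]
        exact sum_shift_le (fun i => if Er x i then (1 : ℝ) else 0)
          (fun i => by split_ifs <;> norm_num) N j W (Finset.mem_range.1 hj).le
    _ = _ := by
        rw [Finset.sum_const, Finset.card_range, nsmul_eq_mul]

theorem main_est (ε : ℝ) (hε : 0 < ε) : ∃ δ > 0, ∀ x : ℕ → Sq, (∀ i, x i ∈ XX) → UD (SS x) δ →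
    UD (TT x) ε := by
  obtain ⟨W, hW⟩ := exists_pow_lt_of_lt_one (show 0 < ε / 5 by linarith)
    (show (1 / 2 : ℝ) < 1 by norm_num)
  obtain ⟨K, hK⟩ := exists_pow_lt_of_lt_one (show 0 < ε / 5 / (W + 1) by positivity)
    (show (1 / 5 : ℝ) < 1 by norm_num)
  let C1 : ℝ := W * ∑ k ∈ Finset.range K, 20 ^ k * 20 ^ (2 * k + 1)
  have hC1 : 0 ≤ C1 := by positivity
  obtain ⟨V, hV⟩ := exists_nat_gt (5 * C1 / ε)
  have hV0 : (0 : ℝ) < V := lt_of_le_of_lt (by positivity) hV
  have hV1 : 1 ≤ V := by exact_mod_cast hV0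
  let C2 : ℝ := 2 ^ W * W + W * ∑ k ∈ Finset.range K, 20 ^ k *
    (2 ^ (V + 20 ^ (2 * k + 1)) * ((V + 20 ^ (2 * k + 1) : ℕ) : ℝ))
  have hC2 : 0 ≤ C2 := by positivity
  refine ⟨ε / 5 / (C2 + 1), by positivity, ?_⟩
  intro x hx hS
  set δ := ε / 5 / (C2 + 1) with hδ
  have hδ0 : 0 ≤ δ := by positivity
  have hE : UD (fun N => (cntE x N : ℝ)) (∑ k ∈ Finset.range K, 20 ^ k *
      (20 ^ (2 * k + 1) / V + 2 ^ (V + 20 ^ (2 * k + 1)) * ((V + 20 ^ (2 * k + 1) : ℕ) : ℝ) * δ) +
      (1 / 5 : ℝ) ^ K) := by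
    refine ((UD.sum (Finset.range K) (fun k N => 20 ^ k * (cntF x k N : ℝ)) _
      (fun k _ => (UD_F hx hδ0 hS k V hV1).const_mul _ (by positivity))).add
      (UD.lin ((1 / 5 : ℝ) ^ K))).mono (fun N => cntE_le x K N)
  have hT := (((UD.lin ((1 / 2 : ℝ) ^ W)).add (UD_bad hδ0 hS W)).add
    ((hE.shift (by positivity) W).const_mul W (by positivity))).mono (fun N => TT_le x W N)
  refine hT.weaken ?_
  have e1 : W * (∑ k ∈ Finset.range K, 20 ^ k *
      (20 ^ (2 * k + 1) / (V : ℝ) +
        2 ^ (V + 20 ^ (2 * k + 1)) * ((V + 20 ^ (2 * k + 1) : ℕ) : ℝ) * δ) + (1 / 5 : ℝ) ^ K) =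
      C1 / V + (W * ∑ k ∈ Finset.range K, 20 ^ k *
        (2 ^ (V + 20 ^ (2 * k + 1)) * ((V + 20 ^ (2 * k + 1) : ℕ) : ℝ))) * δ +
        W * (1 / 5 : ℝ) ^ K := by
    simp only [C1, mul_add, Finset.sum_add_distrib, Finset.mul_sum, Finset.sum_mul,
      Finset.sum_div]
    congr 1
    congr 1
    · apply Finset.sum_congr rfl
      intro k _
      ring
    · apply Finset.sum_congr rfl
      intro k _
      ring
  rw [e1]
  have e2 : C1 / V ≤ ε / 5 := by
    rw [div_le_iff₀ hV0]
    rw [div_lt_iff₀ hε] at hV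
    nlinarith
  have e3 : C2 * δ ≤ ε / 5 := by
    rw [hδ, mul_div_assoc', div_le_iff₀ (by positivity)]
    nlinarith
  have e4 : W * (1 / 5 : ℝ) ^ K ≤ ε / 5 := by
    have h1 : (1 / 5 : ℝ) ^ K * (W + 1) < ε / 5 := by
      rwa [lt_div_iff₀ (by positivity)] at hK
    have h2 : (0 : ℝ) ≤ (1 / 5 : ℝ) ^ K := by positivity
    nlinarith
  have e5 : C2 * δ = 2 ^ W * W * δ + (W * ∑ k ∈ Finset.range K, 20 ^ k *
        (2 ^ (V + 20 ^ (2 * k + 1)) * ((V + 20 ^ (2 * k + 1) : ℕ) : ℝ))) * δ := by
    simp only [C2]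
    ring
  linarith

theorem clopen_of_finite (P : Sq → Prop) (n : ℕ)
    (h : ∀ x y : Sq, (∀ i < n, x i = y i) → (P x → P y)) : IsClopen {x | P x} := by
  have key : ∀ Q : Sq → Prop, (∀ x y : Sq, (∀ i < n, x i = y i) → (Q x → Q y)) →
      IsOpen {x | Q x} := by
    intro Q hQ
    rw [isOpen_iff_forall_mem_open]
    intro x hx
    refine ⟨PiNat.cylinder x n, ?_, PiNat.isOpen_cylinder _ x n, PiNat.self_mem_cylinder x n⟩
    intro y hy
    exact hQ x y (fun i hi => (PiNat.mem_cylinder_iff.1 hy i hi).symm) hx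
  refine ⟨⟨?_⟩, key P h⟩
  exact key (fun x => ¬ P x) (fun x y hxy hx hy => hx (h y x (fun i hi => (hxy i hi).symm) hy))

theorem forb_clopen (k t : ℕ) : IsClopen {x : Sq | Forb k t x} :=
  clopen_of_finite _ (t + 20 ^ (2 * k + 1)) (fun x y hxy =>
    (forb_congr (t := t) (t' := t) (fun j hj => hxy (t + j) (by omega))).1)

theorem XX_closed : IsClosed XX := by
  have : XX = ⋂ k, ⋂ F : Finset ℕ, {x : Sq | (∀ t ∈ F, Forb k t x) → F.card ≤ 20 ^ (2 * k + 1)} := by
    ext x
    simp only [XX, Set.mem_iInter]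
    rfl
  rw [this]
  refine isClosed_iInter (fun k => isClosed_iInter (fun F => ?_))
  by_cases hF : F.card ≤ 20 ^ (2 * k + 1)
  · convert isClosed_univ
    ext x
    simp only [Set.mem_univ, iff_true]
    exact fun _ => hF
  · have h2 : {x : Sq | (∀ t ∈ F, Forb k t x) → F.card ≤ 20 ^ (2 * k + 1)} =
        ⋃ t ∈ F, {x : Sq | Forb k t x}ᶜ := by
      ext x
      simp only [Set.mem_iUnion, exists_prop]
      constructor
      · intro h
        by_contra hne
        push Not at hne
        exact hF (h (fun t ht => by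
          have := hne t ht
          rw [Set.mem_compl_iff, not_not] at this
          exact this))
      · rintro ⟨t, ht, hx⟩ h
        exact absurd (h t ht) hx
    rw [h2]
    exact Set.Finite.isClosed_biUnion (Finset.finite_toSet F)
      (fun t _ => (forb_clopen k t).compl.isClosed)

theorem MM_closed : IsClosed MM := by
  have : MM = ⋂ k, ⋂ t, {x : Sq | Forb k t x}ᶜ := by
    ext x
    simp only [MM, Set.mem_iInter]
    rfl
  rw [this]
  exact isClosed_iInter (fun k => isClosed_iInter (fun t => (forb_clopen k t).compl.isClosed))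

theorem forb_sh {k t : ℕ} {x : Sq} : Forb k t (sh x) ↔ Forb k (t + 1) x := by
  apply forb_congr
  intro j _
  unfold sh
  congr 1
  omega

theorem sh_mem {x : Sq} (hx : x ∈ XX) : sh x ∈ XX := by
  intro k F hF
  have h := hx k (F.image (· + 1)) (by
    intro t ht
    obtain ⟨t', ht', rfl⟩ := Finset.mem_image.1 ht
    exact forb_sh.1 (hF t' ht'))
  rwa [Finset.card_image_of_injective _ (fun a b hab => by simpa using hab)] at h

theorem sh_memM {x : Sq} (hx : x ∈ MM) : sh x ∈ MM := fun k t h => hx k (t + 1) (forb_sh.1 h)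

theorem MM_sub {x : Sq} (hx : x ∈ MM) : x ∈ XX := by
  intro k F hF
  have : F = ∅ := by
    rw [Finset.eq_empty_iff_forall_notMem]
    intro t ht
    exact hx k t (hF t ht)
  rw [this]
  simp

theorem sh_cont : Continuous sh := by
  refine continuous_pi (fun n => ?_)
  exact continuous_apply (n + 1)

theorem const_mem (c : Fin 3) : (fun _ => c : Sq) ∈ MM := by
  intro k t h
  have h1 := h k le_rfl (by omega)
  have h2 := h (k + 1) (by omega) (by omega)
  have h3 := count_le (m := k) (u := t) (a := fun _ => c) h2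
  by_cases hc : c = par k
  · have : (Finset.Ico t (t + 20 ^ (k + 1))).filter (fun _ => c = par k) =
        Finset.Ico t (t + 20 ^ (k + 1)) := Finset.filter_true_of_mem (fun _ _ => hc)
    rw [this, Nat.card_Ico, Nat.add_sub_cancel_left, pow_succ] at h3
    have : 0 < 20 ^ k := by positivity
    omega
  · unfold Dens at h1
    have : (Finset.Ico t (t + 20 ^ k)).filter (fun _ => c = par k) = ∅ :=
      Finset.filter_false_of_mem (fun _ _ => hc)
    rw [this, Finset.card_empty] at h1
    have : 0 < 20 ^ k := by positivity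
    omega

/-- The level. -/
def lev (i : ℕ) : ℕ := Nat.clog 20 (i + 1)

/-- The pseudo-orbit in the small system. -/
def po (i : ℕ) : Sq := fun _ => par (lev i)

theorem lev_mono {i j : ℕ} (h : i ≤ j) : lev i ≤ lev j :=
  Nat.clog_mono_right 20 (by omega)

theorem po_dist (i : ℕ) : dist (sh (po i)) (po (i + 1)) ≤ (lev (i + 1) : ℝ) - lev i := by
  by_cases h : lev i = lev (i + 1)
  · have : sh (po i) = po (i + 1) := by
      unfold sh po
      rw [h]
    rw [this, dist_self, h, sub_self]
  · have h1 := lev_mono (Nat.le_succ i)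
    have h2 : lev i + 1 ≤ lev (i + 1) := by
      rcases Nat.lt_or_ge (lev i) (lev (i + 1)) with h' | h'
      · exact h'
      · exact absurd (le_antisymm h1 h') h
    have h3 : (lev i : ℝ) + 1 ≤ lev (i + 1) := by exact_mod_cast h2
    have := dist_le_one' (sh (po i)) (po (i + 1))
    linarith

theorem po_sum (n k : ℕ) :
    ∑ i ∈ Finset.range n, dist (sh (po (i + k))) (po (i + k + 1)) ≤ (Nat.sqrt n : ℝ) + 1 := by
  have h1 : ∑ i ∈ Finset.range n, dist (sh (po (i + k))) (po (i + k + 1)) ≤
      ∑ i ∈ Finset.range n, ((lev (i + 1 + k) : ℝ) - lev (i + k)) := by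
    apply Finset.sum_le_sum
    intro i _
    have := po_dist (i + k)
    rwa [show i + k + 1 = i + 1 + k by omega] at this ⊢
  rw [Finset.sum_range_sub (fun i => (lev (i + k) : ℝ))] at h1
  refine h1.trans ?_
  have h2 : lev (n + k) ≤ lev (0 + k) + Nat.clog 20 (n + 1) := by
    apply Nat.clog_le_of_le_pow
    rw [pow_add]
    have e1 : k + 1 ≤ 20 ^ lev (0 + k) := by
      rw [zero_add]
      exact Nat.le_pow_clog (by norm_num) _
    have e2 : n + 1 ≤ 20 ^ Nat.clog 20 (n + 1) := Nat.le_pow_clog (by norm_num) _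
    calc n + k + 1 ≤ (k + 1) * (n + 1) := by nlinarith
      _ ≤ _ := Nat.mul_le_mul e1 e2
  have h3 : Nat.clog 20 (n + 1) ≤ Nat.sqrt n + 1 := by
    apply Nat.clog_le_of_le_pow
    have e1 : n < (Nat.sqrt n + 1) ^ 2 := Nat.lt_succ_sqrt' n
    have e2 : (Nat.sqrt n + 1) ^ 2 ≤ 20 ^ (Nat.sqrt n + 1) := by
      have e3 : Nat.sqrt n + 1 < 2 ^ (Nat.sqrt n + 1) := Nat.lt_two_pow_self
      calc (Nat.sqrt n + 1) ^ 2 ≤ (2 ^ (Nat.sqrt n + 1)) ^ 2 := Nat.pow_le_pow_left e3.le 2
        _ = 4 ^ (Nat.sqrt n + 1) := by rw [← pow_mul, mul_comm, pow_mul]; norm_num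
        _ ≤ 20 ^ (Nat.sqrt n + 1) := Nat.pow_le_pow_left (by norm_num) _
    omega
  have h4 : (lev (n + k) : ℝ) ≤ lev (0 + k) + (Nat.sqrt n + 1) := by
    exact_mod_cast h2.trans (Nat.add_le_add_left h3 _)
  linarith

theorem sqrt_tendsto : Tendsto (fun n : ℕ => ((Nat.sqrt n : ℝ) + 1) / n) atTop (𝓝 0) := by
  have h1 : Tendsto (fun n : ℕ => 2 / Real.sqrt n) atTop (𝓝 0) :=
    tendsto_const_nhds.div_atTop (Real.tendsto_sqrt_atTop.comp tendsto_natCast_atTop_atTop)
  refine squeeze_zero' (Eventually.of_forall (fun n => by positivity)) ?_ h1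
  filter_upwards [eventually_ge_atTop 1] with n hn
  have hn' : (1 : ℝ) ≤ n := by exact_mod_cast hn
  have h2 : (Nat.sqrt n : ℝ) ≤ Real.sqrt n := Real.nat_sqrt_le_real_sqrt
  have h3 : (1 : ℝ) ≤ Real.sqrt n := by
    rw [Real.one_le_sqrt]
    exact hn'
  have h4 : Real.sqrt n * Real.sqrt n = n := Real.mul_self_sqrt (by linarith)
  rw [div_le_div_iff₀ (by linarith) (by linarith)]
  nlinarith

theorem no_trace {y : Sq} (hy : y ∈ MM)
    (h : ∀ᶠ n : ℕ in atTop, (∑ i ∈ Finset.range n, dist (sh^[i] y) (po i)) / n < 1 / 20) : False := by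
  classical
  obtain ⟨N, hN⟩ := eventually_atTop.1 h
  have key : ∀ m, N + 1 ≤ m → Dens m 0 y := by
    intro m hm
    have hlt : N ≤ 20 ^ m := by
      have : m < 20 ^ m := Nat.lt_pow_self (by norm_num)
      omega
    have h1 := hN (20 ^ m) hlt
    have hpos : (0 : ℝ) < ((20 ^ m : ℕ) : ℝ) := by positivity
    rw [div_lt_iff₀ hpos] at h1
    obtain ⟨m', rfl⟩ : ∃ m', m = m' + 1 := ⟨m - 1, by omega⟩
    have h2 : (((Finset.range (20 ^ (m' + 1))).filter (fun i => y i ≠ par (lev i))).card : ℝ) ≤
        ∑ i ∈ Finset.range (20 ^ (m' + 1)), dist (sh^[i] y) (po i) := by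
      rw [Finset.card_filter]
      push_cast
      apply Finset.sum_le_sum
      intro i _
      split_ifs with hne
      · by_contra hlt
        push Not at hlt
        have h3 : dist (sh^[i] y) (po i) < (1 / 2 : ℝ) ^ 0 := by simpa using hlt
        have h4 := dist_lt_apply h3 le_rfl
        rw [sh_iter] at h4
        exact hne h4
      · exact dist_nonneg
    have h3 : ((Finset.range (20 ^ (m' + 1))).filter (fun i => y i ≠ par (lev i))).card ≤
        20 ^ m' := by
      have : (((Finset.range (20 ^ (m' + 1))).filter (fun i => y i ≠ par (lev i))).card : ℝ) <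
          (20 : ℝ) ^ m' := by
        refine lt_of_le_of_lt h2 (lt_of_lt_of_le h1 (le_of_eq ?_))
        push_cast
        rw [pow_succ]
        ring
      exact_mod_cast this.le
    have h4 : Finset.range (20 ^ (m' + 1)) ⊆
        (Finset.Ico 0 (0 + 20 ^ (m' + 1))).filter (fun i => y i = par (m' + 1)) ∪
        ((Finset.range (20 ^ (m' + 1))).filter (fun i => y i ≠ par (lev i)) ∪
          Finset.range (20 ^ m')) := by
      intro i hi
      rw [Finset.mem_range] at hi
      simp only [Finset.mem_union, Finset.mem_filter, Finset.mem_Ico, Finset.mem_range]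
      by_cases hi' : i < 20 ^ m'
      · exact Or.inr (Or.inr hi')
      · by_cases hyi : y i = par (m' + 1)
        · exact Or.inl ⟨by omega, hyi⟩
        · refine Or.inr (Or.inl ⟨hi, ?_⟩)
          have : lev i = m' + 1 := by
            apply le_antisymm
            · exact Nat.clog_le_of_le_pow (by omega)
            · rw [Nat.succ_le_iff]
              exact (Nat.lt_clog_iff_pow_lt (by norm_num)).2 (by omega)
          rw [this]
          exact hyi
    have h5 := Finset.card_le_card h4
    rw [Finset.card_range] at h5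
    have h6 := h5.trans (Finset.card_union_le _ _)
    have h7 := Finset.card_union_le ((Finset.range (20 ^ (m' + 1))).filter
      (fun i => y i ≠ par (lev i))) (Finset.range (20 ^ m'))
    rw [Finset.card_range] at h7
    unfold Dens
    have h8 : 20 ^ (m' + 1) = 20 * 20 ^ m' := by ring
    omega
  exact hy (N + 1) 0 (fun m hm _ => key m hm)

/-- The phase space of the example. -/
def Xt : Type := {x : Sq // x ∈ XX}

noncomputable instance : MetricSpace Xt := inferInstanceAs (MetricSpace {x : Sq // x ∈ XX})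

instance : CompactSpace Xt := by
  have h1 : CompactSpace Sq := inferInstanceAs (CompactSpace (ℕ → Fin 3))
  exact isCompact_iff_compactSpace.1 XX_closed.isCompact

noncomputable instance : MeasurableSpace Xt := borel Xt

instance : BorelSpace Xt := ⟨rfl⟩

/-- The shift on the phase space. -/
def ft (x : Xt) : Xt := ⟨sh x.1, sh_mem x.2⟩

theorem ft_cont : Continuous ft :=
  Continuous.subtype_mk (sh_cont.comp continuous_subtype_val) _

theorem ft_iter (x : Xt) (i : ℕ) : (ft^[i] x).1 = sh^[i] x.1 := by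
  induction i generalizing x with
  | zero => rfl
  | succ i ih =>
    rw [Function.iterate_succ_apply, Function.iterate_succ_apply, ih]
    rfl

/-- The subset of sequences without forbidden patterns. -/
def At : Set Xt := {x | x.1 ∈ MM}

theorem ud_of_eventually {f : ℕ → ℝ} {c : ℝ} (h : ∀ᶠ n : ℕ in atTop, f n / n ≤ c) : UD f c := by
  intro η hη
  filter_upwards [h, eventually_ge_atTop 1] with n hn h1
  have hn' : (0 : ℝ) < n := by exact_mod_cast h1
  rw [div_le_iff₀ hn'] at hn
  nlinarith

theorem UD.ev {f : ℕ → ℝ} {c : ℝ} (h : UD f c) (hc : 0 < c) : ∀ᶠ n : ℕ in atTop,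
    f n / n ≤ 2 * c := by
  filter_upwards [h c hc, eventually_ge_atTop 1] with n hn h1
  have hn' : (0 : ℝ) < n := by exact_mod_cast h1
  rw [div_le_iff₀ hn']
  linarith

theorem SS_eq (x : ℕ → Xt) (n : ℕ) :
    ∑ i ∈ Finset.range n, dist (ft (x i)) (x (i + 1)) = SS (fun i => (x i).1) n := rfl

theorem TT_eq (x : ℕ → Xt) (n : ℕ) :
    ∑ i ∈ Finset.range n, dist (ft^[i] ⟨yy (fun i => (x i).1), yy_mem _⟩) (x i) =
      TT (fun i => (x i).1) n := by
  unfold TT
  apply Finset.sum_congr rfl
  intro i _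
  have := ft_iter ⟨yy (fun i => (x i).1), yy_mem _⟩ i
  exact congrArg (fun u => dist u (x i).1) this

theorem X_AASP : HasAASP ft Set.univ := by
  intro x _ hx
  refine ⟨⟨yy (fun i => (x i).1), yy_mem _⟩, trivial, ?_⟩
  have key : ∀ c > 0, ∀ᶠ n : ℕ in atTop, TT (fun i => (x i).1) n / n < c := by
    intro c hc
    obtain ⟨δ, hδ, h⟩ := main_est (c / 4) (by linarith)
    have h1 : UD (SS (fun i => (x i).1)) δ := by
      apply ud_of_eventually
      filter_upwards [hx.eventually (gt_mem_nhds hδ)] with n hn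
      rw [SS_eq] at hn
      exact hn.le
    filter_upwards [(h _ (fun i => (x i).2) h1).ev (by linarith)] with n hn
    linarith
  rw [Metric.tendsto_atTop]
  intro c hc
  obtain ⟨N, hN⟩ := eventually_atTop.1 (key c hc)
  refine ⟨N, fun n hn => ?_⟩
  rw [TT_eq, Real.dist_eq, sub_zero, abs_of_nonneg]
  · exact hN n hn
  · refine div_nonneg (Finset.sum_nonneg (fun i _ => dist_nonneg)) (Nat.cast_nonneg n)

theorem X_ASP : HasASP ft Set.univ := by
  intro ε hε
  obtain ⟨δ, hδ, h⟩ := main_est (ε / 4) (by linarith)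
  refine ⟨δ, hδ, ?_⟩
  rintro x ⟨-, N, hN⟩
  refine ⟨⟨yy (fun i => (x i).1), yy_mem _⟩, trivial, ?_⟩
  have h1 : UD (SS (fun i => (x i).1)) δ := by
    apply ud_of_eventually
    filter_upwards [eventually_ge_atTop N] with n hn
    have := hN n hn 0
    simp only [add_zero] at this
    rw [SS_eq] at this
    exact this.le
  have h2 := (h _ (fun i => (x i).2) h1).ev (by linarith)
  refine lt_of_le_of_lt (limsup_le_of_le (a := ε / 2) ?_ ?_) (by linarith)
  · refine IsBoundedUnder.isCoboundedUnder_flip (isBoundedUnder_of ⟨0, fun n => ?_⟩)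
    exact div_nonneg (Finset.sum_nonneg (fun i _ => dist_nonneg)) (Nat.cast_nonneg n)
  · filter_upwards [h2] with n hn
    rw [TT_eq]
    linarith

/-- The pseudo-orbit as a sequence in the phase space. -/
def pt (i : ℕ) : Xt := ⟨po i, MM_sub (const_mem _)⟩

theorem A_not_AASP : ¬ HasAASP ft At := by
  intro h
  obtain ⟨y, hy, hy'⟩ := h pt (fun i => const_mem _) (by
    refine squeeze_zero (fun n => div_nonneg (Finset.sum_nonneg (fun i _ => dist_nonneg))
      (Nat.cast_nonneg n)) (fun n => ?_) sqrt_tendsto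
    have := po_sum n 0
    simp only [add_zero] at this
    exact div_le_div_of_nonneg_right this (Nat.cast_nonneg n))
  refine no_trace hy ?_
  filter_upwards [hy'.eventually (gt_mem_nhds (show (0 : ℝ) < 1 / 20 by norm_num))] with n hn
  refine lt_of_le_of_lt (le_of_eq ?_) hn
  congr 1
  apply Finset.sum_congr rfl
  intro i _
  rw [← ft_iter]
  rfl

theorem A_not_ASP : ¬ HasASP ft At := by
  intro h
  obtain ⟨δ, hδ, h⟩ := h (1 / 20) (by norm_num)
  obtain ⟨N, hN⟩ := eventually_atTop.1 (sqrt_tendsto.eventually (gt_mem_nhds hδ))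
  obtain ⟨y, hy, hy'⟩ := h pt ⟨fun i => const_mem _, N, fun n hn k => by
    refine lt_of_le_of_lt ?_ (hN n hn)
    exact div_le_div_of_nonneg_right (po_sum n k) (Nat.cast_nonneg n)⟩
  refine no_trace hy ?_
  have hb : IsBoundedUnder (· ≤ ·) atTop
      (fun n : ℕ => (∑ i ∈ Finset.range n, dist (ft^[i] y) (pt i)) / n) := by
    refine isBoundedUnder_of ⟨1, fun n => ?_⟩
    rcases Nat.eq_zero_or_pos n with h0 | h0
    · rw [h0]
      simp
    · have hn' : (0 : ℝ) < n := by exact_mod_cast h0
      rw [div_le_iff₀ hn', one_mul]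
      calc ∑ i ∈ Finset.range n, dist (ft^[i] y) (pt i) ≤ ∑ i ∈ Finset.range n, (1 : ℝ) :=
            Finset.sum_le_sum (fun i _ => dist_le_one' _ _)
        _ = n := by simp
  filter_upwards [eventually_lt_of_limsup_lt hy' hb] with n hn
  refine lt_of_le_of_lt (le_of_eq ?_) hn
  congr 1
  apply Finset.sum_congr rfl
  intro i _
  rw [← ft_iter]
  rfl

theorem center_sub : measureCenter ft ⊆ At := by
  intro x hx
  by_contra hxA
  have : ∃ k t, Forb k t x.1 := by
    by_contra hne
    push Not at hne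
    exact hxA hne
  obtain ⟨k, t, hkt⟩ := this
  let U : ℕ → Set Xt := fun t => {y | Forb k t y.1}
  have hU : ∀ t, IsOpen (U t) := fun t =>
    (forb_clopen k t).isOpen.preimage continuous_subtype_val
  have hpre : ∀ t, ft ⁻¹' (U t) = U (t + 1) := by
    intro t
    ext y
    exact forb_sh
  apply hx
  refine ⟨U t, ⟨hU t, ?_⟩, hkt⟩
  intro μ hμ hf
  have h1 : ∀ t, μ (U t) = μ (U 0) := by
    intro t
    induction t with
    | zero => rfl
    | succ t ih =>
      rw [← hpre, hf.measure_preimage (hU t).measurableSet.nullMeasurableSet, ih]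
  rw [h1]
  by_contra hne
  obtain ⟨n, hn⟩ := ENNReal.exists_nat_mul_gt hne
    (ENNReal.natCast_ne_top (20 ^ (2 * k + 1)))
  have h2 : (n : ENNReal) * μ (U 0) ≤ ((20 ^ (2 * k + 1) : ℕ) : ENNReal) := by
    classical
    calc (n : ENNReal) * μ (U 0) = ∑ t ∈ Finset.range n, μ (U t) := by
          simp only [h1, Finset.sum_const, Finset.card_range, nsmul_eq_mul]
      _ = ∑ t ∈ Finset.range n, ∫⁻ y, (U t).indicator 1 y ∂μ := by
          apply Finset.sum_congr rfl
          intro t _
          rw [MeasureTheory.lintegral_indicator_one (hU t).measurableSet]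
      _ = ∫⁻ y, ∑ t ∈ Finset.range n, (U t).indicator 1 y ∂μ := by
          rw [MeasureTheory.lintegral_finsetSum]
          intro t _
          exact measurable_one.indicator (hU t).measurableSet
      _ ≤ ∫⁻ _, ((20 ^ (2 * k + 1) : ℕ) : ENNReal) ∂μ := by
          apply MeasureTheory.lintegral_mono
          intro y
          have h3 := y.2 k ((Finset.range n).filter (fun t => Forb k t y.1))
            (fun t ht => (Finset.mem_filter.1 ht).2)
          have h4 : ∑ t ∈ Finset.range n, (U t).indicator (1 : Xt → ENNReal) y =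
              (((Finset.range n).filter (fun t => Forb k t y.1)).card : ENNReal) := by
            rw [Finset.card_filter]
            push_cast
            apply Finset.sum_congr rfl
            intro t _
            rw [Set.indicator_apply]
            rfl
          simp only
          rw [h4]
          exact_mod_cast h3
      _ = _ := by
          rw [MeasureTheory.lintegral_const, MeasureTheory.measure_univ, mul_one]
  exact absurd hn (not_lt.2 h2)

theorem A_compact : IsCompact At := by
  have h : IsClosed At := MM_closed.preimage continuous_subtype_val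
  exact h.isCompact

theorem A_maps : Set.MapsTo ft At At := fun _ hx => sh_memM hx

end Est

section ASec
open MeasureTheory BoundedContinuousFunction

variable {X : Type} [MetricSpace X] [CompactSpace X] [MeasurableSpace X] [BorelSpace X]

/-- The empirical measure. -/
noncomputable def emp (f : X → X) (z : X) (n : ℕ) : Measure X :=
  (n : ENNReal)⁻¹ • ∑ i ∈ Finset.range n, Measure.dirac (f^[i] z)

theorem emp_apply (f : X → X) (z : X) (n : ℕ) (C : Set X) (hC : MeasurableSet C) :
    emp f z n C = (n : ENNReal)⁻¹ * ∑ i ∈ Finset.range n, C.indicator 1 (f^[i] z) := by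
  unfold emp
  rw [Measure.smul_apply, Measure.finsetSum_apply, smul_eq_mul]
  congr 1
  apply Finset.sum_congr rfl
  intro i _
  rw [Measure.dirac_apply' _ hC]

theorem emp_prob (f : X → X) (z : X) (n : ℕ) (hn : 0 < n) : IsProbabilityMeasure (emp f z n) := by
  constructor
  rw [emp_apply _ _ _ _ MeasurableSet.univ]
  simp only [Set.indicator_univ, Pi.one_apply, Finset.sum_const, Finset.card_range,
    nsmul_eq_mul, mul_one]
  exact ENNReal.inv_mul_cancel (by exact_mod_cast hn.ne') (ENNReal.natCast_ne_top n)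

theorem emp_integral (f : X → X) (z : X) (n : ℕ) (φ : X →ᵇ ℝ) :
    ∫ x, φ x ∂(emp f z n) = (n : ℝ)⁻¹ * ∑ i ∈ Finset.range n, φ (f^[i] z) := by
  unfold emp
  rw [integral_smul_measure, integral_finsetSum_measure]
  · simp only [integral_dirac, smul_eq_mul, ENNReal.toReal_inv, ENNReal.toReal_natCast]
  · intro i _
    exact φ.integrable _

theorem exists_measure (f : X → X) (hf : Continuous f) (C : Set X) (hC : IsClosed C) (L : ℕ)
    (hL : 0 < L) (h : ∀ R : ℕ, ∃ z, ∀ r < R, f^[r * L] z ∈ C) :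
    ∃ μ : Measure X, IsProbabilityMeasure μ ∧ MeasurePreserving f μ μ ∧ μ C ≠ 0 := by
  choose z hz using h
  have hpos : ∀ R : ℕ, 0 < (R + 1) * L := fun R => Nat.mul_pos (Nat.succ_pos R) hL
  let νs : ℕ → ProbabilityMeasure X := fun R =>
    ⟨emp f (z (R + 1)) ((R + 1) * L), emp_prob _ _ _ (hpos R)⟩
  have hνs : ∀ R, (νs R : Measure X) = emp f (z (R + 1)) ((R + 1) * L) := fun R => rfl
  let F : Ultrafilter ℕ := hyperfilter ℕ
  have hF : (F : Filter ℕ) ≤ atTop := Nat.hyperfilter_le_atTop
  let μ : ProbabilityMeasure X := (F.map νs).lim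
  have hμ : Tendsto νs F (𝓝 μ) := (F.map νs).le_nhds_lim
  have hint := ProbabilityMeasure.tendsto_iff_forall_integral_tendsto.1 hμ
  refine ⟨μ, inferInstance, ⟨hf.measurable, ?_⟩, ?_⟩
  · have : IsProbabilityMeasure (Measure.map f (μ : Measure X)) :=
      Measure.isProbabilityMeasure_map hf.measurable.aemeasurable
    apply ext_of_forall_integral_eq_of_IsFiniteMeasure
    intro φ
    rw [integral_map hf.measurable.aemeasurable φ.continuous.aestronglyMeasurable]
    have h1 := hint φ
    have h2 := hint (φ.compContinuous ⟨f, hf⟩)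
    have h3 : Tendsto (fun R => ∫ x, (φ.compContinuous ⟨f, hf⟩) x ∂(νs R : Measure X) -
        ∫ x, φ x ∂(νs R : Measure X)) F (𝓝 0) := by
      refine Tendsto.mono_left ?_ hF
      have h4 : Tendsto (fun R : ℕ => 2 * ‖φ‖ * ((R : ℝ) + 1)⁻¹) atTop (𝓝 0) := by
        have := (tendsto_one_div_add_atTop_nhds_zero_nat (𝕜 := ℝ)).const_mul (2 * ‖φ‖)
        simpa [one_div] using this
      refine squeeze_zero_norm (fun R => ?_) h4
      rw [hνs, emp_integral, emp_integral, ← mul_sub, ← Finset.sum_sub_distrib]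
      have h5 : ∑ i ∈ Finset.range ((R + 1) * L), ((φ.compContinuous ⟨f, hf⟩) (f^[i] (z (R + 1))) -
          φ (f^[i] (z (R + 1)))) = φ (f^[(R + 1) * L] (z (R + 1))) - φ (z (R + 1)) := by
        have := Finset.sum_range_sub (fun i => φ (f^[i] (z (R + 1)))) ((R + 1) * L)
        simp only [Function.iterate_zero, id] at this
        rw [← this]
        apply Finset.sum_congr rfl
        intro i _
        rw [Function.iterate_succ_apply']
        rfl
      rw [h5, norm_mul]
      have h6 : ‖φ (f^[(R + 1) * L] (z (R + 1))) - φ (z (R + 1))‖ ≤ 2 * ‖φ‖ := by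
        refine (norm_sub_le _ _).trans ?_
        have := φ.norm_coe_le_norm (f^[(R + 1) * L] (z (R + 1)))
        have := φ.norm_coe_le_norm (z (R + 1))
        linarith
      have h7 : ‖((((R + 1) * L : ℕ) : ℝ))⁻¹‖ ≤ ((R : ℝ) + 1)⁻¹ := by
        rw [norm_inv, Real.norm_natCast]
        apply inv_anti₀ (by positivity)
        have : R + 1 ≤ (R + 1) * L := Nat.le_mul_of_pos_right _ hL
        exact_mod_cast this
      rw [mul_comm (2 * ‖φ‖)]
      exact mul_le_mul h7 h6 (norm_nonneg _) (by positivity)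
    have h8 := tendsto_nhds_unique (h2.sub h1) h3
    have h9 : ∫ x, (φ.compContinuous ⟨f, hf⟩) x ∂(μ : Measure X) = ∫ x, φ (f x) ∂(μ : Measure X) :=
      rfl
    rw [← h9]
    linarith
  · intro h0
    have h1 := ProbabilityMeasure.limsup_measure_closed_le_of_tendsto hμ hC
    rw [h0] at h1
    have h2 : ∀ R, (L : ENNReal)⁻¹ ≤ (νs R : Measure X) C := by
      intro R
      rw [hνs, emp_apply _ _ _ _ hC.measurableSet]
      have h3 : ((R + 1 : ℕ) : ENNReal) ≤
          ∑ i ∈ Finset.range ((R + 1) * L), C.indicator 1 (f^[i] (z (R + 1))) := by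
        have h4 : ((Finset.range (R + 1)).image (fun r => r * L)) ⊆
            Finset.range ((R + 1) * L) := by
          intro i hi
          simp only [Finset.mem_image, Finset.mem_range] at hi ⊢
          obtain ⟨r, hr, rfl⟩ := hi
          exact Nat.mul_lt_mul_of_pos_right hr hL
        refine le_trans ?_ (Finset.sum_le_sum_of_subset h4)
        rw [Finset.sum_image (fun a _ b _ hab => Nat.eq_of_mul_eq_mul_right hL hab)]
        rw [Finset.sum_congr rfl (g := fun _ => (1 : ENNReal))]
        · simp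
        · intro r hr
          rw [Set.indicator_of_mem (hz (R + 1) r (Finset.mem_range.1 hr))]
          rfl
      calc (L : ENNReal)⁻¹ = (((R + 1) * L : ℕ) : ENNReal)⁻¹ * ((R + 1 : ℕ) : ENNReal) := by
            rw [Nat.cast_mul, ENNReal.mul_inv (Or.inr (ENNReal.natCast_ne_top L))
              (Or.inl (ENNReal.natCast_ne_top _)), mul_comm ((R + 1 : ℕ) : ENNReal)⁻¹, mul_assoc,
              ENNReal.inv_mul_cancel (by exact_mod_cast Nat.succ_ne_zero R)
              (ENNReal.natCast_ne_top _), mul_one]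
        _ ≤ _ := by gcongr
    have h3 : (L : ENNReal)⁻¹ ≤ limsup (fun R => (νs R : Measure X) C) F := by
      refine le_limsup_of_frequently_le (Frequently.of_forall h2) ?_
      isBoundedDefault
    have h4 := h3.trans h1
    rw [nonpos_iff_eq_zero, ENNReal.inv_eq_zero] at h4
    exact ENNReal.natCast_ne_top L h4

theorem sum_period (n : ℕ → ℕ) (m : ℕ) (r j : ℕ) (hj : j ≤ m) :
    ∑ i ∈ Finset.range (r * m + j), n (i % m) =
      r * (∑ i ∈ Finset.range m, n i) + ∑ i ∈ Finset.range j, n i := by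
  have h1 : ∀ r j, j ≤ m → ∑ i ∈ Finset.range j, n ((r * m + i) % m) =
      ∑ i ∈ Finset.range j, n i := by
    intro r j hj
    apply Finset.sum_congr rfl
    intro i hi
    rw [Finset.mem_range] at hi
    rw [add_comm, Nat.add_mul_mod_self_right, Nat.mod_eq_of_lt (by omega)]
  have h2 : ∀ r, ∑ i ∈ Finset.range (r * m), n (i % m) = r * (∑ i ∈ Finset.range m, n i) := by
    intro r
    induction r with
    | zero => simp
    | succ r ih =>
      rw [Nat.succ_mul, Finset.sum_range_add, ih, h1 r m le_rfl, Nat.succ_mul]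
  rw [Finset.sum_range_add, h2, h1 r j hj]

/-- Almost specification passes to every set containing the measure center. -/
theorem HasAS_restrict (f : X → X) (hf : Continuous f) (A : Set X) (hM : measureCenter f ⊆ A)
    (h : HasAS f Set.univ) : HasAS f A := by
  obtain ⟨g, ε₀, k, ⟨hε₀, hg1, hg2⟩, hk, hspec⟩ := h
  have hHpos : ∀ ε : ℝ, 0 < ε → 0 < min ε ε₀ / 2 := fun ε hε => by
    have := lt_min hε hε₀
    linarith
  have hHlt : ∀ ε : ℝ, 0 < ε → min ε ε₀ / 2 < ε := fun ε hε => by
    have := min_le_left ε ε₀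
    have := lt_min hε hε₀
    linarith
  have hHle : ∀ ε : ℝ, min ε ε₀ / 2 ≤ ε₀ := fun ε => by
    have := min_le_right ε ε₀
    linarith
  refine ⟨fun n ε => g n (min ε ε₀ / 2), ε₀, fun ε => k (min ε ε₀ / 2), ⟨hε₀, ?_, ?_⟩, ?_, ?_⟩
  · intro ε hε _
    exact hg1 _ (hHpos ε hε) (hHle ε)
  · intro n ε hε
    simp only [min_eq_right hε.le, min_self]
  · intro ε hε n hn
    exact hk _ (hHpos ε hε) n hn
  · intro m ε x n hm hε hx hn
    have hn1 : ∀ j < m, 1 ≤ n j := fun j hj => by
      have := hk _ (hHpos _ (hε j hj)) (n j) (hn j hj)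
      omega
    set L := ∑ i ∈ Finset.range m, n i with hL
    have hLpos : 0 < L := by
      have : n 0 ≤ L := Finset.single_le_sum (f := n) (fun _ _ => Nat.zero_le _)
        (Finset.mem_range.2 (by omega))
      have := hn1 0 (by omega)
      omega
    let C : Set X := {z | ∀ j < m, ∃ Λ ⊆ Finset.range (n j),
      n j ≤ Λ.card + g (n j) (min (ε j) ε₀ / 2) ∧
      ∀ i ∈ Λ, dist (f^[i] (x j)) (f^[i] (f^[∑ i ∈ Finset.range j, n i] z)) ≤ min (ε j) ε₀ / 2}
    have hC : IsClosed C := by
      have : C = ⋂ j ∈ {j | j < m}, ⋃ Λ ∈ {Λ : Finset ℕ | Λ ⊆ Finset.range (n j) ∧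
          n j ≤ Λ.card + g (n j) (min (ε j) ε₀ / 2)}, ⋂ i ∈ Λ,
          {z | dist (f^[i] (x j)) (f^[i] (f^[∑ i ∈ Finset.range j, n i] z)) ≤
            min (ε j) ε₀ / 2} := by
        ext z
        simp only [C, Set.mem_ofPred_eq, Set.mem_iInter, Set.mem_iUnion, exists_prop, and_assoc]
      rw [this]
      refine isClosed_biInter (fun j _ => ?_)
      refine Set.Finite.isClosed_biUnion ?_ (fun Λ _ => ?_)
      · refine Set.Finite.subset (Finset.finite_toSet (Finset.range (n j)).powerset) ?_
        rintro Λ ⟨h1, -⟩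
        exact Finset.mem_coe.2 (Finset.mem_powerset.2 h1)
      · refine isClosed_biInter (fun i _ => ?_)
        exact isClosed_le (continuous_const.dist ((hf.iterate i).comp (hf.iterate _)))
          continuous_const
    have hR : ∀ R : ℕ, ∃ z, ∀ r < R, f^[r * L] z ∈ C := by
      intro R
      rcases Nat.eq_zero_or_pos R with h0 | h0
      · exact ⟨x 0, fun r hr => by omega⟩
      · have hmod : ∀ i, i % m < m := fun i => Nat.mod_lt _ hm
        obtain ⟨z, -, hz⟩ := hspec (R * m) (fun i => min (ε (i % m)) ε₀ / 2)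
          (fun i => x (i % m)) (fun i => n (i % m)) (Nat.mul_pos h0 hm)
          (fun i _ => hHpos _ (hε _ (hmod i))) (fun _ _ => trivial) (fun i _ => hn _ (hmod i))
        refine ⟨z, fun r hr j hj => ?_⟩
        have hlt : r * m + j < R * m := by
          have : (r + 1) * m ≤ R * m := Nat.mul_le_mul_right m hr
          rw [Nat.succ_mul] at this
          omega
        have h1 := hz (r * m + j) hlt
        have h2 : (r * m + j) % m = j := by
          rw [add_comm, Nat.add_mul_mod_self_right, Nat.mod_eq_of_lt hj]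
        rw [sum_period n m r j hj.le, ← hL] at h1
        simp only [h2] at h1
        obtain ⟨Λ, hΛ, hc, hd⟩ := h1
        refine ⟨Λ, hΛ, hc, fun i hi => ?_⟩
        rw [← Function.iterate_add_apply f (∑ i ∈ Finset.range j, n i), add_comm]
        exact (hd i hi).le
    obtain ⟨μ, hμ, hμf, hμC⟩ := exists_measure f hf C hC L hLpos hR
    have hne : ∃ z ∈ C, z ∈ measureCenter f := by
      by_contra hcon
      push Not at hcon
      apply hμC
      refine hC.isCompact.measure_zero_of_nhdsWithin (fun z hz => ?_)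
      have h1 := hcon z hz
      unfold measureCenter at h1
      rw [Set.notMem_compl_iff] at h1
      obtain ⟨U, ⟨hU, hU0⟩, hzU⟩ := h1
      exact ⟨U, mem_nhdsWithin_of_mem_nhds (hU.mem_nhds hzU), hU0 μ hμ hμf⟩
    obtain ⟨z, hzC, hzM⟩ := hne
    refine ⟨z, hM hzM, fun j hj => ?_⟩
    obtain ⟨Λ, hΛ, hc, hd⟩ := hzC j hj
    exact ⟨Λ, hΛ, hc, fun i hi => (hd i hi).trans_lt (hHlt _ (hε j hj))⟩

end ASec

/-- **The answer for each of the three properties.** Almost specification passes from `X` to every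
compact invariant subset containing the measure center; average shadowing and asymptotic average
shadowing do not. -/
theorem result :
    (∀ (X : Type) [MetricSpace X] [CompactSpace X] [MeasurableSpace X] [BorelSpace X]
      (f : X → X) (A : Set X), Continuous f → IsCompact A → Set.MapsTo f A A →
      measureCenter f ⊆ A → HasAS f Set.univ → HasAS f A) ∧
    ∃ (X : Type) (_ : MetricSpace X) (_ : CompactSpace X) (_ : MeasurableSpace X)
      (_ : BorelSpace X) (f : X → X) (A : Set X), Continuous f ∧ IsCompact A ∧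
      Set.MapsTo f A A ∧ measureCenter f ⊆ A ∧ HasASP f Set.univ ∧ HasAASP f Set.univ ∧
      ¬ HasASP f A ∧ ¬ HasAASP f A := by
  refine ⟨?_, Xt, inferInstance, inferInstance, inferInstance, inferInstance, ft, At, ft_cont,
    A_compact, A_maps, center_sub, X_ASP, X_AASP, A_not_ASP, A_not_AASP⟩
  intro X _ _ _ _ f A hf _ _ hM h
  exact HasAS_restrict f hf A hM h

end Pool.Agent.Results.MP_7fd9c6_an.MeasureCenterShadowing

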